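import Pool.Agent.Work.MP_df74ac_an.NormStep

/-!
MP_df74ac_an, question Q1, full answer: for every weakly compactly generated real Banach space `X ≠ {0}`
the statements (a) and (b) of the problem are equivalent. Statement (a) is proved in both usual
readings of Gateaux differentiability.
-/

set_option autoImplicit false

open Filter Topology Set

namespace Pool.Agent.Results.MP_df74ac_an.GateauxNowhereFrechet

universe u

section Definitions

variable (X : Type u) [NormedAddCommGroup X] [NormedSpace ℝ X]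

/-- A Banach space `X` is weakly compactly generated if it contains a weakly compact set whose linear
span is norm dense in `X`. Here `toWeakSpace ℝ X '' K` is the set `K` in the space `X` with its weak
topology. -/
def WCG : Prop :=
  ∃ K : Set X, IsCompact (toWeakSpace ℝ X '' K) ∧
    Dense ((Submodule.span ℝ K : Submodule ℝ X) : Set X)

variable {X} in
/-- The seminorm `p` is a norm and it is equivalent: it induces the original topology of `X`, that
is, a set is open in `X` if and only if it is open for the balls of `p`. -/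
def EquivNorm (p : Seminorm ℝ X) : Prop :=
  (∀ x, p x = 0 → x = 0) ∧
    ∀ U : Set X, IsOpen U ↔ ∀ x ∈ U, ∃ ε > 0, ∀ y, p (y - x) < ε → y ∈ U

variable {X} in
/-- `f` is Gateaux differentiable at `x`: there is a continuous linear functional `L` such that
`L v` is the derivative of `f` at `x` in the direction `v`, for all `v`. -/
def GateauxAt (f : X → ℝ) (x : X) : Prop :=
  ∃ L : X →L[ℝ] ℝ, ∀ v, HasLineDerivAt ℝ f (L v) x v

/-- Statement (a): `X` admits an equivalent norm which is Gateaux differentiable at every point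
`x ≠ 0` and Frechet differentiable at no point `x ≠ 0`. -/
def StatementA : Prop :=
  ∃ p : Seminorm ℝ X, EquivNorm p ∧ (∀ x ≠ 0, GateauxAt p x) ∧ ∀ x ≠ 0, ¬ DifferentiableAt ℝ p x

/-- Statement (a) where Gateaux differentiability only means that all the (two-sided) directional
derivatives exist. -/
def StatementA' : Prop :=
  ∃ p : Seminorm ℝ X, EquivNorm p ∧ (∀ x ≠ 0, ∀ v, LineDifferentiableAt ℝ p x v) ∧
    ∀ x ≠ 0, ¬ DifferentiableAt ℝ p x

/-- The dual of `X` has the convex weak star point of continuity property: every nonempty weak star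
compact convex set `C` in the dual contains a point at which the relative weak star topology and
the relative norm topology on `C` coincide, that is, have the same neighbourhoods. Here
`WeakDual ℝ X` is the dual with the weak star topology, and `WeakDual.toStrongDual` is the identity
map from it to the dual with the norm topology. -/
def CStarPCP : Prop :=
  ∀ C : Set (WeakDual ℝ X), C.Nonempty → IsCompact C → Convex ℝ C →
    ∃ z ∈ C, map WeakDual.toStrongDual (𝓝[C] z) =
      𝓝[WeakDual.toStrongDual '' C] (WeakDual.toStrongDual z)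

end Definitions

section Proofs

variable {X : Type u} [NormedAddCommGroup X] [NormedSpace ℝ X]

open Pool.Agent.Work.MP_df74ac_an

theorem eqNorm_of_equivNorm {p : Seminorm ℝ X} (hp : EquivNorm p) :
    ∃ c₁ c₂ : ℝ, EqNorm (fun x => p x) c₁ c₂ := by
  obtain ⟨hdef, htop⟩ := hp
  have h1 : IsOpen {y : X | p y < 1} := by
    rw [htop]
    intro x hx
    refine ⟨1 - p x, by simpa using hx, fun y hy => ?_⟩
    have h2 : p y ≤ p (y - x) + p x := by
      have := map_add_le_add p (y - x) x
      simpa using this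
    show p y < 1
    linarith
  have h0 : (0 : X) ∈ {y : X | p y < 1} := by simp
  obtain ⟨δ, hδ, hb⟩ := Metric.isOpen_iff.1 h1 0 h0
  obtain ⟨ε, hε, hb'⟩ := (htop (Metric.ball (0 : X) 1)).1 Metric.isOpen_ball 0
    (Metric.mem_ball_self one_pos)
  refine ⟨ε / 2, 2 / δ, ?_, ?_, by positivity, by positivity, ?_, ?_⟩
  · intro x y
    exact map_add_le_add p x y
  · intro r x
    have := map_smul_eq_mul p r x
    simpa using this
  · intro x
    by_cases hx : x = 0
    · simp [hx]
    have hpx : 0 < p x := lt_of_le_of_ne (apply_nonneg p x) (fun h => hx (hdef x h.symm))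
    have h2 : p ((ε / (2 * p x)) • x - 0) < ε := by
      rw [sub_zero, map_smul_eq_mul, Real.norm_of_nonneg (by positivity)]
      have : ε / (2 * p x) * p x = ε / 2 := by field_simp
      rw [this]
      linarith
    have h3 := hb' _ h2
    rw [mem_ball_zero_iff, norm_smul, Real.norm_of_nonneg (by positivity)] at h3
    have h4 : ε / (2 * p x) * ‖x‖ * p x ≤ 1 * p x := mul_le_mul_of_nonneg_right h3.le hpx.le
    have h5 : ε / (2 * p x) * ‖x‖ * p x = ε / 2 * ‖x‖ := by field_simp
    show ε / 2 * ‖x‖ ≤ p x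
    linarith
  · intro x
    by_cases hx : x = 0
    · simp [hx]
    have hnx : 0 < ‖x‖ := norm_pos_iff.2 hx
    have h2 : (δ / (2 * ‖x‖)) • x ∈ Metric.ball (0 : X) δ := by
      rw [mem_ball_zero_iff, norm_smul, Real.norm_of_nonneg (by positivity)]
      have : δ / (2 * ‖x‖) * ‖x‖ = δ / 2 := by field_simp
      rw [this]
      linarith
    have h3 : p ((δ / (2 * ‖x‖)) • x) < 1 := hb h2
    rw [map_smul_eq_mul, Real.norm_of_nonneg (by positivity)] at h3
    have h4 : δ / (2 * ‖x‖) * p x * (2 * ‖x‖ / δ) ≤ 1 * (2 * ‖x‖ / δ) :=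
      mul_le_mul_of_nonneg_right h3.le (by positivity)
    have h5 : δ / (2 * ‖x‖) * p x * (2 * ‖x‖ / δ) = p x := by field_simp
    have h6 : 1 * (2 * ‖x‖ / δ) = 2 / δ * ‖x‖ := by ring
    show p x ≤ 2 / δ * ‖x‖
    linarith

theorem exists_equivNorm {N : X → ℝ} {c₁ c₂ : ℝ} (hN : EqNorm N c₁ c₂) :
    ∃ p : Seminorm ℝ X, EquivNorm p ∧ ⇑p = N := by
  refine ⟨Seminorm.of N hN.add hN.smul, ⟨?_, ?_⟩, rfl⟩
  · intro x hx
    have h1 : N x = 0 := hx
    have h2 := hN.lower x
    rw [h1] at h2
    have h3 : ‖x‖ ≤ 0 := by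
      by_contra h
      have := mul_pos hN.pos₁ (not_le.1 h)
      linarith
    exact norm_le_zero_iff.1 h3
  · intro U
    rw [Metric.isOpen_iff]
    have hc₁ := hN.pos₁
    have hc₂ := hN.pos₂
    constructor
    · intro h x hx
      obtain ⟨δ, hδ, hb⟩ := h x hx
      refine ⟨c₁ * δ, by positivity, fun y hy => hb ?_⟩
      have h1 : N (y - x) < c₁ * δ := hy
      have h2 := hN.lower (y - x)
      rw [Metric.mem_ball, dist_eq_norm]
      exact lt_of_mul_lt_mul_left (h2.trans_lt h1) hc₁.le
    · intro h x hx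
      obtain ⟨ε, hε, hb⟩ := h x hx
      refine ⟨ε / c₂, by positivity, fun y hy => hb y ?_⟩
      rw [Metric.mem_ball, dist_eq_norm, lt_div_iff₀ hc₂] at hy
      show N (y - x) < ε
      have h2 := hN.upper (y - x)
      linarith

/-- For an equivalent norm the directional derivatives are linear and continuous. -/
theorem gateaux_of_line {N : X → ℝ} {c₁ c₂ : ℝ} (hN : EqNorm N c₁ c₂) {x : X}
    (h : ∀ v, LineDifferentiableAt ℝ N x v) : GateauxAt N x := by
  have hd : ∀ v, HasDerivAt (fun t : ℝ => N (x + t • v)) (lineDeriv ℝ N x v) 0 :=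
    fun v => (h v).hasLineDerivAt
  set g : X → ℝ := fun v => lineDeriv ℝ N x v with hg
  have hadd : ∀ v w, g (v + w) = g v + g w := by
    intro v w
    have h1 : HasDerivAt (fun t : ℝ => (1 / 2) * N (x + t • ((2 : ℝ) • v)) +
        (1 / 2) * N (x + t • ((2 : ℝ) • w)) - N (x + t • (v + w)))
        ((1 / 2) * g ((2 : ℝ) • v) + (1 / 2) * g ((2 : ℝ) • w) - g (v + w)) 0 :=
      (((hd ((2 : ℝ) • v)).const_mul (1 / 2)).add ((hd ((2 : ℝ) • w)).const_mul (1 / 2))).sub
        (hd (v + w))
    have h2 : IsLocalMin (fun t : ℝ => (1 / 2) * N (x + t • ((2 : ℝ) • v)) +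
        (1 / 2) * N (x + t • ((2 : ℝ) • w)) - N (x + t • (v + w))) 0 := by
      apply Filter.Eventually.of_forall
      intro t
      have e1 : x + t • (v + w) = (1 / 2 : ℝ) • (x + t • ((2 : ℝ) • v)) +
          (1 / 2 : ℝ) • (x + t • ((2 : ℝ) • w)) := by
        simp only [smul_add, smul_smul]
        have : x = (1 / 2 : ℝ) • x + (1 / 2 : ℝ) • x := by
          rw [← add_smul]
          norm_num
        rw [show (1 / 2 : ℝ) * (t * 2) = t by ring]
        nth_rewrite 1 [this]
        abel
      have e2 : N (x + t • (v + w)) ≤ (1 / 2) * N (x + t • ((2 : ℝ) • v)) +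
          (1 / 2) * N (x + t • ((2 : ℝ) • w)) := by
        rw [e1]
        refine (hN.add _ _).trans (le_of_eq ?_)
        rw [hN.smul, hN.smul]
        norm_num
      have e3 : (1 / 2) * N (x + (0 : ℝ) • ((2 : ℝ) • v)) +
          (1 / 2) * N (x + (0 : ℝ) • ((2 : ℝ) • w)) - N (x + (0 : ℝ) • (v + w)) = 0 := by
        simp only [zero_smul, add_zero]
        ring
      show (1 / 2) * N (x + (0 : ℝ) • ((2 : ℝ) • v)) +
          (1 / 2) * N (x + (0 : ℝ) • ((2 : ℝ) • w)) - N (x + (0 : ℝ) • (v + w)) ≤ _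
      rw [e3]
      linarith
    have h3 := h2.hasDerivAt_eq_zero h1
    have h4 : ∀ v, g ((2 : ℝ) • v) = 2 * g v := by
      intro v
      have k1 : HasDerivAt (fun t : ℝ => N (x + (2 * t) • v)) (g v * 2) 0 := by
        have k2 : HasDerivAt (fun t : ℝ => 2 * t) 2 0 := by
          simpa using (hasDerivAt_id (0 : ℝ)).const_mul 2
        have k3 : HasDerivAt (fun t : ℝ => N (x + t • v)) (g v) (2 * (0 : ℝ)) := by
          simpa using hd v
        exact k3.comp (0 : ℝ) k2
      have k4 : HasDerivAt (fun t : ℝ => N (x + (2 * t) • v)) (g ((2 : ℝ) • v)) 0 := by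
        have := hd ((2 : ℝ) • v)
        simp only [smul_smul] at this
        simpa only [mul_comm] using this
      rw [k4.unique k1]
      ring
    rw [h4, h4] at h3
    linarith
  have hsmul : ∀ (c : ℝ) v, g (c • v) = c * g v := by
    intro c v
    have k1 : HasDerivAt (fun t : ℝ => N (x + (c * t) • v)) (g v * c) 0 := by
      have k2 : HasDerivAt (fun t : ℝ => c * t) c 0 := by
        simpa using (hasDerivAt_id (0 : ℝ)).const_mul c
      have k3 : HasDerivAt (fun t : ℝ => N (x + t • v)) (g v) (c * (0 : ℝ)) := by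
        simpa using hd v
      exact k3.comp (0 : ℝ) k2
    have k4 : HasDerivAt (fun t : ℝ => N (x + (c * t) • v)) (g (c • v)) 0 := by
      have := hd (c • v)
      simp only [smul_smul] at this
      simpa only [mul_comm] using this
    rw [k4.unique k1]
    ring
  have hbd : ∀ v, ‖g v‖ ≤ c₂ * ‖v‖ := by
    intro v
    apply (hd v).le_of_lip' (by have := hN.pos₂; positivity)
    apply Filter.Eventually.of_forall
    intro t
    have e1 : ∀ a b : X, N a - N b ≤ c₂ * ‖a - b‖ := by
      intro a b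
      have k1 := hN.add (a - b) b
      rw [sub_add_cancel] at k1
      have k2 := hN.upper (a - b)
      linarith
    have e2 : ‖(x + t • v) - (x + (0 : ℝ) • v)‖ = |t| * ‖v‖ := by
      rw [add_sub_add_left_eq_sub, ← sub_smul, sub_zero, norm_smul, Real.norm_eq_abs]
    have e3 : ‖(x + (0 : ℝ) • v) - (x + t • v)‖ = |t| * ‖v‖ := by
      rw [norm_sub_rev, e2]
    have e4 := e1 (x + t • v) (x + (0 : ℝ) • v)
    have e5 := e1 (x + (0 : ℝ) • v) (x + t • v)
    rw [e2] at e4
    rw [e3] at e5
    rw [Real.norm_eq_abs, Real.norm_eq_abs, sub_zero, abs_le]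
    constructor <;> nlinarith
  refine ⟨LinearMap.mkContinuous { toFun := g, map_add' := hadd, map_smul' := hsmul } c₂ hbd, ?_⟩
  intro v
  exact hd v

theorem frozen_of_cstar (h : CStarPCP X) : ∀ C : Set (X →L[ℝ] ℝ), C.Nonempty → Convex ℝ C →
    @IsCompact (X →L[ℝ] ℝ)
      (TopologicalSpace.induced (fun (f : X →L[ℝ] ℝ) (x : X) => f x) inferInstance) C →
    ∃ z ∈ C, ∀ ε : ℝ, 0 < ε → ∃ U : Set (X →L[ℝ] ℝ),
      @IsOpen (X →L[ℝ] ℝ)
        (TopologicalSpace.induced (fun (f : X →L[ℝ] ℝ) (x : X) => f x) inferInstance) U ∧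
      z ∈ U ∧ ∀ y ∈ C ∩ U, ‖y - z‖ < ε := by
  intro C hne hconv hcomp
  obtain ⟨z, hz, he⟩ := h (C : Set (WeakDual ℝ X)) hne hcomp hconv
  refine ⟨WeakDual.toStrongDual z, hz, fun ε hε => ?_⟩
  have h1 : Metric.ball (WeakDual.toStrongDual z) ε ∈
      𝓝[WeakDual.toStrongDual '' (C : Set (WeakDual ℝ X))] (WeakDual.toStrongDual z) :=
    mem_nhdsWithin_of_mem_nhds (Metric.ball_mem_nhds _ hε)
  rw [← he, Filter.mem_map] at h1
  obtain ⟨U, hU, hzU, hsub⟩ := mem_nhdsWithin.1 h1
  refine ⟨U, hU, hzU, fun y hy => ?_⟩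
  have h2 : WeakDual.toStrongDual (y : WeakDual ℝ X) ∈
      Metric.ball (WeakDual.toStrongDual z) ε := hsub ⟨hy.2, hy.1⟩
  rw [Metric.mem_ball, dist_eq_norm] at h2
  exact h2

theorem cstar_of_frozen (h : ∀ C : Set (X →L[ℝ] ℝ), C.Nonempty → Convex ℝ C →
    @IsCompact (X →L[ℝ] ℝ)
      (TopologicalSpace.induced (fun (f : X →L[ℝ] ℝ) (x : X) => f x) inferInstance) C →
    ∃ z ∈ C, ∀ ε : ℝ, 0 < ε → ∃ U : Set (X →L[ℝ] ℝ),
      @IsOpen (X →L[ℝ] ℝ)
        (TopologicalSpace.induced (fun (f : X →L[ℝ] ℝ) (x : X) => f x) inferInstance) U ∧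
      z ∈ U ∧ ∀ y ∈ C ∩ U, ‖y - z‖ < ε) : CStarPCP X := by
  intro C hne hcomp hconv
  obtain ⟨z, hz, hU⟩ := h (C : Set (X →L[ℝ] ℝ)) hne hconv hcomp
  refine ⟨StrongDual.toWeakDual z, hz, ?_⟩
  apply le_antisymm
  · have h1 : Tendsto (WeakDual.toStrongDual : WeakDual ℝ X → StrongDual ℝ X)
        (𝓝[C] (StrongDual.toWeakDual z)) (𝓝 z) := by
      rw [Metric.tendsto_nhds]
      intro ε hε
      obtain ⟨U, hUo, hzU, hsm⟩ := hU ε hε
      have h2 : U ∩ C ∈ 𝓝[C] (StrongDual.toWeakDual z) :=
        mem_nhdsWithin.2 ⟨U, hUo, hzU, subset_rfl⟩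
      filter_upwards [h2] with y hy
      rw [dist_eq_norm]
      exact hsm y ⟨hy.2, hy.1⟩
    refine tendsto_nhdsWithin_iff.2 ⟨h1, ?_⟩
    filter_upwards [self_mem_nhdsWithin] with y hy
    exact ⟨y, hy, rfl⟩
  · have h1 : Tendsto (StrongDual.toWeakDual : StrongDual ℝ X → WeakDual ℝ X)
        (𝓝[WeakDual.toStrongDual '' C] z) (𝓝[C] (StrongDual.toWeakDual z)) := by
      refine tendsto_nhdsWithin_iff.2 ⟨?_, ?_⟩
      · exact (NormedSpace.Dual.toWeakDual_continuous.tendsto z).mono_left nhdsWithin_le_nhds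
      · filter_upwards [self_mem_nhdsWithin] with y hy
        obtain ⟨y', hy', rfl⟩ := hy
        exact hy'
    intro S hS
    have h2 := h1 hS
    exact h2

end Proofs

/-- **Q1.** For every weakly compactly generated real Banach space `X ≠ {0}` (in every universe)
statement (a), in each of the two readings, holds if and only if `X*` fails the C*PCP. -/
theorem result : ∀ (X : Type u) [NormedAddCommGroup X] [NormedSpace ℝ X] [CompleteSpace X]
    [Nontrivial X], WCG X → (StatementA X ↔ ¬ CStarPCP X) ∧ (StatementA' X ↔ ¬ CStarPCP X) := by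
  intro X _ _ _ _ hX
  have hab : StatementA' X → ¬ CStarPCP X := by
    rintro ⟨p, hp, hG, hF⟩ hc
    obtain ⟨c₁, c₂, hN⟩ := eqNorm_of_equivNorm hp
    exact Pool.Agent.Work.MP_df74ac_an.not_cstar_of_norm hN
      (fun x hx => gateaux_of_line hN (hG x hx)) hF (frozen_of_cstar hc)
  have haa : StatementA X → StatementA' X := by
    rintro ⟨p, hp, hG, hF⟩
    refine ⟨p, hp, fun x hx v => ?_, hF⟩
    obtain ⟨L, hL⟩ := hG x hx
    exact (hL v).lineDifferentiableAt
  have hba : ¬ CStarPCP X → StatementA X := by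
    intro h
    obtain ⟨K, hK, hd⟩ := hX
    have hK' : @IsCompact X
        (TopologicalSpace.induced (fun (x : X) (f : X →L[ℝ] ℝ) => f x) inferInstance) K := by
      have e : toWeakSpace ℝ X '' K = (K : Set (WeakSpace ℝ X)) := Set.image_id K
      rw [e] at hK
      exact hK
    have h' := mt (cstar_of_frozen (X := X)) h
    push Not at h'
    obtain ⟨C, hne, hconv, hcomp, hno⟩ := h'
    obtain ⟨Γ, y, C', ε, hD⟩ := Pool.Agent.Work.MP_df74ac_an.prep hK' hd C hne hconv hcomp hno
    obtain ⟨p, hp, hpN⟩ := exists_equivNorm hD.eqNorm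
    refine ⟨p, hp, fun x hx => ?_, fun x hx => ?_⟩
    · rw [hpN]
      obtain ⟨θ, hθ, hθx⟩ := hD.exists_max x
      exact ⟨Pool.Agent.Work.MP_df74ac_an.fth θ, hD.grad hx hθ hθx⟩
    · rw [hpN]
      exact hD.not_diff hx
  exact ⟨⟨fun h => hab (haa h), hba⟩, ⟨hab, fun h => haa (hba h)⟩⟩

end Pool.Agent.Results.MP_df74ac_an.GateauxNowhereFrechet
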